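import Pool.Agent.R592.Ba.Smz

/-!
# Closure properties of strong measure zero sets
-/

open Cardinal Set Pool.Agent.R592.Ba

namespace Pool.Agent.R331.Ba

theorem exists_agree {U : Set X} (hU : IsOpen U) {x : X} (hx : x ∈ U) :
    ∃ m, ∀ y, Agree m x y → y ∈ U := by
  obtain ⟨I, u, hu, hsub⟩ := isOpen_pi_iff.1 hU x hx
  refine ⟨I.sup id + 1, fun y hy => hsub ?_⟩
  intro i hi
  have h1 : i < I.sup id + 1 := Nat.lt_succ_of_le (Finset.le_sup (f := id) hi)
  rw [← hy i h1]
  exact (hu i hi).2

theorem isOpen_agree (m : ℕ) (x : X) : IsOpen {y : X | Agree m x y} := by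
  have h : {y : X | Agree m x y} = ⋂ i ∈ Finset.range m, {y : X | x i = y i} := by
    ext y
    simp [Agree]
  rw [h]
  refine isOpen_biInter_finset fun i _ => ?_
  have : {y : X | x i = y i} = (fun y : X => y i) ⁻¹' {x i} := by
    ext y
    simp [eq_comm]
  rw [this]
  exact (isOpen_discrete _).preimage (continuous_apply i)

theorem agree_symm {m : ℕ} {x y : X} (h : Agree m x y) : Agree m y x := fun i hi => (h i hi).symm

theorem agree_trans {m : ℕ} {x y z : X} (h : Agree m x y) (h' : Agree m y z) : Agree m x z :=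
  fun i hi => (h i hi).trans (h' i hi)

theorem uniform (h : X → X) (hc : Continuous h) (n : ℕ) :
    ∃ m, ∀ x y, Agree m x y → Agree n (h x) (h y) := by
  set U : ℕ → Set X := fun m => {x | ∀ y, Agree m x y → Agree n (h x) (h y)} with hUdef
  have hUo : ∀ m, IsOpen (U m) := by
    intro m
    rw [isOpen_iff_mem_nhds]
    intro x hx
    refine Filter.mem_of_superset ((isOpen_agree m x).mem_nhds (fun i _ => rfl)) ?_
    intro z hz y hy
    exact agree_trans (agree_symm (hx z hz)) (hx y (agree_trans hz hy))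
  have hmono : Monotone U := by
    intro m m' hm x hx y hy
    exact hx y fun i hi => hy i (lt_of_lt_of_le hi hm)
  have hcov : (univ : Set X) ⊆ ⋃ m, U m := by
    intro x _
    obtain ⟨m, hm⟩ := exists_agree ((isOpen_agree n (h x)).preimage hc)
      (show x ∈ h ⁻¹' {y | Agree n (h x) y} from fun i _ => rfl)
    exact mem_iUnion.2 ⟨m, fun y hy => hm y hy⟩
  obtain ⟨m, hm⟩ := isCompact_univ.elim_directed_cover U hUo hcov hmono.directed_le
  exact ⟨m, fun x y hxy => hm (mem_univ x) y hxy⟩

theorem continuous_app (s : List Bool) : Continuous (app s) := by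
  refine continuous_pi fun i => ?_
  by_cases h : i < s.length
  · simp only [app, h, dif_pos]
    exact continuous_const
  · simp only [app, h, dif_neg, not_false_iff]
    exact continuous_apply _

theorem app_injective (s : List Bool) : Function.Injective (app s) := by
  intro x y hxy
  funext i
  have := congrFun hxy (i + s.length)
  simpa [app] using this

theorem smz_mono (A B : Set X) (h : A ⊆ B) (hB : SMZ B) : SMZ A := by
  intro f
  obtain ⟨σ, h1, h2⟩ := hB f
  exact ⟨σ, h1, h.trans h2⟩

theorem smz_iUnion (A : ℕ → Set X) (hA : ∀ n, SMZ (A n)) : SMZ (⋃ n, A n) := by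
  intro f
  choose σ h1 h2 using fun j => hA j fun n => f (Nat.pair j n)
  refine ⟨fun m => σ m.unpair.1 m.unpair.2, fun m => ?_, ?_⟩
  · have := h1 m.unpair.1 m.unpair.2
    rwa [Nat.pair_unpair] at this
  · intro x hx
    obtain ⟨j, hj⟩ := mem_iUnion.1 hx
    obtain ⟨n, hn⟩ := mem_iUnion.1 (h2 j hj)
    refine mem_iUnion.2 ⟨Nat.pair j n, ?_⟩
    simpa using hn

theorem smz_image (h : X → X) (A : Set X) (hc : Continuous h) (hA : SMZ A) : SMZ (h '' A) := by
  intro f
  choose m hm using fun n => uniform h hc n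
  obtain ⟨σ, h1, h2⟩ := hA fun n => m (f n)
  set z : ℕ → X := fun n => app (σ n) (fun _ => false) with hz
  refine ⟨fun n => List.ofFn (fun i : Fin (f n) => h (z n) i), fun n => by simp, ?_⟩
  rintro _ ⟨y, hy, rfl⟩
  obtain ⟨n, hn⟩ := mem_iUnion.1 (h2 hy)
  refine mem_iUnion.2 ⟨n, ?_⟩
  have hag : Agree (m (f n)) (z n) y := by
    intro i hi
    have hi' : i < (σ n).length := lt_of_lt_of_le hi (h1 n)
    rw [hn i hi']
    simp [hz, app, hi']
  have hag2 := hm (f n) (z n) y hag
  intro i hi
  have hi' : i < f n := by simpa using hi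
  rw [← hag2 i hi']
  simp

theorem smzProps : SmzProps := by
  refine ⟨smz_mono, smz_iUnion, smz_image, ?_⟩
  intro κ hκ Z hZ hsmz
  set A : Set X := ⋃ s : List Bool, app s '' Z with hA
  have hAcard : #A ≤ κ := by
    have h1 : A = range (fun p : List Bool × Z => app p.1 (p.2 : X)) := by
      ext x
      constructor
      · intro hx
        obtain ⟨s, z, hz, rfl⟩ := mem_iUnion.1 hx
        exact ⟨(s, ⟨z, hz⟩), rfl⟩
      · rintro ⟨⟨s, z⟩, rfl⟩
        exact mem_iUnion.2 ⟨s, z, z.2, rfl⟩
    rw [h1]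
    refine mk_range_le.trans ?_
    rw [mk_prod, lift_id, lift_id, hZ]
    calc #(List Bool) * κ ≤ ℵ₀ * κ := mul_le_mul' mk_le_aleph0 le_rfl
      _ ≤ κ * κ := mul_le_mul' hκ le_rfl
      _ = κ := mul_eq_self hκ
  have hmain : ∀ Y : Set X, #Y ≤ κ → KDense κ (Y ∪ A) := by
    intro Y hY U hU hne
    apply le_antisymm
    · calc #(↥((Y ∪ A) ∩ U)) ≤ #(↥(Y ∪ A)) := mk_le_mk_of_subset inter_subset_left
        _ ≤ #Y + #A := mk_union_le _ _
        _ ≤ κ + κ := add_le_add hY hAcard
        _ = κ := add_eq_self hκ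
    · obtain ⟨x, hx⟩ := hne
      obtain ⟨m, hm⟩ := exists_agree hU hx
      set s : List Bool := List.ofFn (fun i : Fin m => x i) with hs
      have hlen : s.length = m := by simp [hs]
      have hsub : app s '' Z ⊆ (Y ∪ A) ∩ U := by
        rintro _ ⟨z, hz, rfl⟩
        refine ⟨Or.inr (mem_iUnion.2 ⟨s, z, hz, rfl⟩), hm _ ?_⟩
        intro i hi
        have hi' : i < s.length := by rw [hlen]; exact hi
        simp [app, hi', hs]
        intro h
        omega
      calc κ = #Z := hZ.symm
        _ = #(app s '' Z) := (mk_image_eq (app_injective s)).symm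
        _ ≤ #(↥((Y ∪ A) ∩ U)) := mk_le_mk_of_subset hsub
  refine ⟨A, ?_, ?_, hmain⟩
  · have := hmain ∅ (by simp)
    rwa [empty_union] at this
  · obtain ⟨e, he⟩ := exists_surjective_nat (List Bool)
    have h1 : A = ⋃ n, app (e n) '' Z := by
      rw [hA]
      exact (he.iUnion_comp (fun s => app s '' Z)).symm
    rw [h1]
    exact smz_iUnion _ fun n => smz_image _ _ (continuous_app _) hsmz

end Pool.Agent.R331.Ba
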